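import Pool.Agent.Q54.ZR.Stm

/-!
# Project ZR (helper54), jobs FI, FT
-/

set_option autoImplicit false

namespace Pool.Agent.Q25.ZR

open Finset Pool.Agent.Q54.ZR

theorem fi : S_FI := by
  intro V _ c s x hc hx
  unfold F
  rw [sum_insert hx, erase_insert hx]
  have h : ∀ a ∈ s, ∑ y ∈ (insert x s).erase a, c a y = c x a + ∑ y ∈ s.erase a, c a y := by
    intro a ha
    have hax : x ≠ a := fun h => hx (h ▸ ha)
    rw [erase_insert_of_ne hax, sum_insert (fun h => hx (mem_of_mem_erase h)), hc a x]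
  rw [sum_congr rfl h, sum_add_distrib]
  generalize ∑ y ∈ s, c x y = A
  generalize ∑ a ∈ s, ∑ y ∈ s.erase a, c a y = B
  revert A B
  decide

theorem ft : S_FT := by
  intro α V _ _ _ c φ hφ
  unfold S F
  congr 1
  rw [sum_image (fun a _ b _ h => hφ h)]
  refine sum_congr rfl fun a _ => ?_
  rw [← image_erase hφ, sum_image (fun a _ b _ h => hφ h), ← sum_filter]
  refine sum_congr ?_ fun _ _ => rfl
  ext b
  simp [SimpleGraph.top_adj, eq_comm]

end Pool.Agent.Q25.ZR
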