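import Pool.Agent.Q54.ZR.Stm

/-!
# Project ZR (helper54), job RED
-/

set_option autoImplicit false

namespace Pool.Agent.Q25.ZR.RED

open Finset Pool.Agent.Q54.ZR

section

variable {α : Type} [Fintype α] (P : α → Prop) [DecidablePred P]

theorem sumP (g : α → ZMod 3) (h : ∀ a, ¬ P a → g a = 0) : ∑ a, g a = ∑ a : {a // P a}, g a := by
  rw [← Fintype.sum_subtype_add_sum_subtype P g]
  have : ∑ i : {x // ¬ P x}, g i = 0 := sum_eq_zero fun i _ => h i.1 i.2
  rw [this, add_zero]

end

section

variable {α : Type} [Fintype α] (G : SimpleGraph α) [DecidableRel G.Adj]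
  [DecidablePred fun a => ∃ b, G.Adj a b]

/-- the induced graph on the vertices which are not isolated -/
def G' : SimpleGraph {a // ∃ b, G.Adj a b} := G.comap Subtype.val

instance : DecidableRel (G' G).Adj := fun a b => inferInstanceAs (Decidable (G.Adj a.1 b.1))

theorem sum2 (f : α → α → ZMod 3) :
    ∑ a, ∑ b, (if G.Adj a b then f a b else 0) =
      ∑ a : {a // ∃ b, G.Adj a b}, ∑ b : {a // ∃ b, G.Adj a b},
        (if (G' G).Adj a b then f a.1 b.1 else 0) := by
  rw [sumP (fun a => ∃ b, G.Adj a b)]
  · refine sum_congr rfl fun a _ => ?_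
    rw [sumP (fun a => ∃ b, G.Adj a b)]
    · rfl
    · intro b hb
      rw [if_neg]
      intro h
      exact hb ⟨_, h.symm⟩
  · intro a ha
    refine sum_eq_zero fun b _ => ?_
    rw [if_neg]
    intro h
    exact ha ⟨_, h⟩

variable [DecidableEq α] {V : Type} [Fintype V] [DecidableEq V]

theorem ext (hext : S_EXT) (c : V → V → ZMod 3) (hcard : Fintype.card α ≤ Fintype.card V)
    (ψ : {a // ∃ b, G.Adj a b} → V) (hψ : Function.Injective ψ) (h0 : S (G' G) c ψ = 0)
    (z : V) : ∃ φ : α → V, Function.Injective φ ∧ S G c φ = 0 := by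
  obtain ⟨φ, hφ, hφ1, _⟩ := hext α V (univ.filter fun a => ∃ b, G.Adj a b)
    (fun a => if h : ∃ b, G.Adj a b then ψ ⟨a, h⟩ else z) (univ \ univ.image ψ) (by
      intro a ha b hb hab
      simp only [coe_filter, mem_univ, true_and, Set.mem_ofPred_eq] at ha hb
      simp only at hab
      rw [dif_pos ha, dif_pos hb] at hab
      exact congrArg Subtype.val (hψ hab)) (by
      intro a ha
      simp only [mem_filter, mem_univ, true_and] at ha
      rw [dif_pos ha, mem_sdiff]
      intro h
      exact h.2 (mem_image_of_mem _ (mem_univ _))) (by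
      rw [card_sdiff_of_subset (subset_univ _), card_image_of_injective _ hψ, card_univ, card_univ,
        Fintype.card_subtype]
      have h1 : (univ.filter fun a => ∃ b, G.Adj a b).card ≤ Fintype.card α := card_le_univ _
      omega)
  refine ⟨φ, hφ, ?_⟩
  have h1 : ∀ a : {a // ∃ b, G.Adj a b}, φ a.1 = ψ a := by
    intro a
    rw [hφ1 a.1 (by simpa using a.2), dif_pos a.2]
  unfold S at h0 ⊢
  refine Eq.trans ?_ h0
  rw [sum2 G (fun a b => c (φ a) (φ b))]
  congr 1
  refine sum_congr rfl fun a _ => sum_congr rfl fun b _ => ?_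
  rw [h1, h1]

end

theorem red : S_EXT → S_CORE → S_K3U → S_RED := by
  intro hext hcore hk3 α V _ _ _ _ G _ c hc hdeg hcard hne
  classical
  have hV : 0 < Fintype.card V := by omega
  obtain ⟨z⟩ := Fintype.card_pos_iff.1 hV
  have hle : Fintype.card {a // ∃ b, G.Adj a b} ≤ Fintype.card α := Fintype.card_subtype_le _
  by_cases hcase : Fintype.card {a // ∃ b, G.Adj a b} = 3 ∧
      ∀ a b : {a // ∃ b, G.Adj a b}, a ≠ b → (G' G).Adj a b
  · obtain ⟨h3, hcomp⟩ := hcase
    have h4 : 4 ≤ Fintype.card α := by
      by_contra hlt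
      have h5 : Fintype.card α = 3 := by omega
      apply hne
      refine ⟨h5, ?_⟩
      have hall : ∀ a : α, ∃ b, G.Adj a b := by
        have h6 : (univ.filter fun a => ∃ b, G.Adj a b) = univ := by
          apply eq_univ_of_card
          rw [← Fintype.card_subtype, h3, h5]
        intro a
        have := mem_univ a
        rw [← h6, mem_filter] at this
        exact this.2
      intro a b hab
      exact hcomp ⟨a, hall a⟩ ⟨b, hall b⟩ (fun h => hab (congrArg Subtype.val h))
    obtain ⟨x, y, w, hxy, hyw, hxw, h0⟩ := hk3 V c hc (by omega)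
    let e : Fin 3 ≃ {a // ∃ b, G.Adj a b} := (Fintype.equivFinOfCardEq h3).symm
    have hv : Function.Injective ![x, y, w] := by
      intro i j hij
      fin_cases i <;> fin_cases j <;> simp at hij ⊢
      · exact hxy hij
      · exact hxw hij
      · exact hxy hij.symm
      · exact hyw hij
      · exact hxw hij.symm
      · exact hyw hij.symm
    refine ext G hext c (by omega) (fun a => ![x, y, w] (e.symm a))
      (hv.comp e.symm.injective) ?_ z
    unfold S
    have h6 : ∀ a b, (if (G' G).Adj a b then c (![x, y, w] (e.symm a)) (![x, y, w] (e.symm b)) else 0)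
        = if e.symm a = e.symm b then 0 else c (![x, y, w] (e.symm a)) (![x, y, w] (e.symm b)) := by
      intro a b
      by_cases hab : a = b
      · rw [hab, if_neg (SimpleGraph.irrefl _), if_pos rfl]
      · rw [if_pos (hcomp a b hab), if_neg (fun h => hab (e.symm.injective h))]
    have h7 : ∑ a, ∑ b, (if (G' G).Adj a b then
        c (![x, y, w] (e.symm a)) (![x, y, w] (e.symm b)) else 0) =
        ∑ i : Fin 3, ∑ j : Fin 3, if i = j then 0 else c (![x, y, w] i) (![x, y, w] j) := by
      rw [← e.symm.sum_comp]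
      refine sum_congr rfl fun a _ => ?_
      rw [← e.symm.sum_comp]
      exact sum_congr rfl fun b _ => h6 a b
    rw [h7]
    simp only [Fin.sum_univ_three]
    simp
    rw [hc y x, hc w x, hc w y]
    right
    linear_combination 2 * h0
  · obtain ⟨W, hW⟩ : ∃ W : Finset V, W ⊆ univ ∧
        W.card = Fintype.card {a // ∃ b, G.Adj a b} + 7 := by
      obtain ⟨W, hW1, hW2⟩ := exists_subset_card_eq
        (s := (univ : Finset V)) (n := Fintype.card {a // ∃ b, G.Adj a b} + 7) (by
          rw [card_univ]
          omega)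
      exact ⟨W, hW1, hW2⟩
    obtain ⟨ψ, hψ, h0⟩ := hcore {a // ∃ b, G.Adj a b} {v // v ∈ W} (G' G) (fun a b => c a.1 b.1)
      (fun a b => hc _ _) (by
        unfold Deg3 at hdeg ⊢
        rw [sum2 G (fun _ _ => 1)] at hdeg
        exact hdeg) (by
        rintro ⟨a, b, hab⟩
        exact ⟨⟨b, a, hab.symm⟩, hab⟩) (by
        rw [Fintype.card_coe, hW.2]) hcase
    refine ext G hext c (by omega) (fun a => (ψ a).1) (Subtype.val_injective.comp hψ) ?_ z
    exact h0

end Pool.Agent.Q25.ZR.RED
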