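import Pool.Agent.Q54.ZR.Stm

/-!
# Project ZR (helper54), job STAR
-/

set_option autoImplicit false

namespace Pool.Agent.Q25.ZR

open Finset Pool.Agent.Q54.ZR

section

variable {V : Type} [DecidableEq V]

theorem fin4 : ∀ w e f : ZMod 3, e ≠ 0 → f ≠ 0 → w = 0 ∨ w + e = 0 ∨ w + f = 0 ∨ w + e + f = 0 := by
  decide

theorem four (T : Finset V) (h : V → ZMod 3) (m : ℕ) (hm : 2 ≤ m) (hT : m + 2 ≤ T.card)
    (p p' q q' : V) (hp : p ∈ T) (hp' : p' ∈ T) (hq : q ∈ T) (hq' : q' ∈ T)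
    (hnd : [p, p', q, q'].Nodup) (h1 : h p ≠ h p') (h2 : h q ≠ h q') :
    ∃ s ⊆ T, s.card = m ∧ ∑ x ∈ s, h x = 0 := by
  have hc4 : ({p, p', q, q'} : Finset V).card = 4 := by
    have := List.toFinset_card_of_nodup hnd
    simpa using this
  have hs4 : ({p, p', q, q'} : Finset V) ⊆ T := by
    intro x hx
    simp only [mem_insert, mem_singleton] at hx
    rcases hx with rfl | rfl | rfl | rfl <;> assumption
  obtain ⟨B, hB, hBc⟩ : ∃ B ⊆ T \ {p, p', q, q'}, B.card = m - 2 := by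
    apply exists_subset_card_eq
    rw [card_sdiff_of_subset hs4, hc4]
    omega
  have hn : ∀ x ∈ ({p, p', q, q'} : Finset V), x ∉ B := by
    intro x hx hxB
    exact (mem_sdiff.1 (hB hxB)).2 hx
  have hBT : B ⊆ T := fun x hx => (mem_sdiff.1 (hB hx)).1
  have hpB : p ∉ B := hn p (by simp)
  have hp'B : p' ∉ B := hn p' (by simp)
  have hqB : q ∉ B := hn q (by simp)
  have hq'B : q' ∉ B := hn q' (by simp)
  simp only [List.nodup_cons, List.mem_cons, List.not_mem_nil, or_false, not_or,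
    not_false_eq_true, and_true, List.nodup_nil] at hnd
  obtain ⟨⟨_, hpq, hpq'⟩, ⟨hp'q, hp'q'⟩, _⟩ := hnd
  have key : ∀ P Q : V, P ∈ T → Q ∈ T → P ∉ B → Q ∉ B → P ≠ Q →
      h P + (h Q + ∑ x ∈ B, h x) = 0 → ∃ s ⊆ T, s.card = m ∧ ∑ x ∈ s, h x = 0 := by
    intro P Q hP hQ hPB hQB hPQ h0
    have hPI : P ∉ insert Q B := by
      rw [mem_insert]
      exact fun h => h.elim hPQ hPB
    refine ⟨insert P (insert Q B), ?_, ?_, ?_⟩
    · intro x hx
      rw [mem_insert, mem_insert] at hx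
      rcases hx with rfl | rfl | hx
      · exact hP
      · exact hQ
      · exact hBT hx
    · rw [card_insert_of_notMem hPI, card_insert_of_notMem hQB, hBc]
      omega
    · rw [sum_insert hPI, sum_insert hQB]
      exact h0
  rcases fin4 (h p + (h q + ∑ x ∈ B, h x)) (h p' - h p) (h q' - h q) (sub_ne_zero.2 h1.symm)
    (sub_ne_zero.2 h2.symm) with h0 | h0 | h0 | h0
  · exact key p q hp hq hpB hqB hpq h0
  · exact key p' q hp' hq hp'B hqB hp'q (by rw [← h0]; ring)
  · exact key p q' hp hq' hpB hq'B hpq' (by rw [← h0]; ring)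
  · exact key p' q' hp' hq' hp'B hq'B hp'q' (by rw [← h0]; ring)

theorem const (T : Finset V) (h : V → ZMod 3) (m : ℕ) (hm : (m : ZMod 3) = 0) (hT : m ≤ T.card)
    (k : ZMod 3) (hk : ∀ x ∈ T, h x = k) : ∃ s ⊆ T, s.card = m ∧ ∑ x ∈ s, h x = 0 := by
  obtain ⟨s, hs, hc⟩ := exists_subset_card_eq hT
  refine ⟨s, hs, hc, ?_⟩
  rw [sum_congr rfl (fun x hx => hk x (hs hx)), sum_const, hc, nsmul_eq_mul, hm, zero_mul]

theorem egz (T : Finset V) (h : V → ZMod 3) (m : ℕ) (hm : (m : ZMod 3) = 0)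
    (hT : m + 2 ≤ T.card) : ∃ s ⊆ T, s.card = m ∧ ∑ x ∈ s, h x = 0 := by
  rcases Nat.eq_zero_or_pos m with rfl | hpos
  · exact ⟨∅, empty_subset _, rfl, rfl⟩
  have h3 : 3 ∣ m := (ZMod.natCast_eq_zero_iff m 3).1 hm
  have hm3 : 3 ≤ m := Nat.le_of_dvd hpos h3
  by_cases hcon : ∀ x ∈ T, ∀ y ∈ T, h x = h y
  · obtain ⟨x0, hx0⟩ : T.Nonempty := by
      rw [← card_pos]
      omega
    exact const T h m hm (by omega) (h x0) fun x hx => hcon x hx x0 hx0
  push Not at hcon
  obtain ⟨p, hp, p', hp', hne⟩ := hcon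
  have hpp : p ≠ p' := fun e => hne (by rw [e])
  set U : Finset V := (T.erase p).erase p' with hU
  have hUc : U.card + 2 = T.card := by
    rw [hU, card_erase_of_mem (mem_erase.2 ⟨hpp.symm, hp'⟩), card_erase_of_mem hp]
    omega
  by_cases h2 : ∃ q ∈ U, ∃ q' ∈ U, h q ≠ h q'
  · obtain ⟨q, hq, q', hq', hqq⟩ := h2
    have e1 : q ≠ q' := fun e => hqq (by rw [e])
    rw [hU, mem_erase, mem_erase] at hq hq'
    refine four T h m (by omega) hT p p' q q' hp hp' hq.2.2 hq'.2.2 ?_ hne hqq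
    simp only [List.nodup_cons, List.mem_cons, List.not_mem_nil, or_false, not_or,
      not_false_eq_true, and_true, List.nodup_nil]
    exact ⟨⟨hpp, hq.2.1.symm, hq'.2.1.symm⟩, ⟨hq.1.symm, hq'.1.symm⟩, e1⟩
  push Not at h2
  obtain ⟨r1, hr1, r2, hr2, hrr⟩ : ∃ r1 ∈ U, ∃ r2 ∈ U, r1 ≠ r2 := by
    rw [← one_lt_card]
    omega
  have hr1' := hr1
  have hr2' := hr2
  rw [hU, mem_erase, mem_erase] at hr1' hr2'
  by_cases hpk : h p = h r1
  · have := const (T.erase p') h m hm (by rw [card_erase_of_mem hp']; omega) (h r1) (by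
      intro x hx
      rw [mem_erase] at hx
      by_cases hxp : x = p
      · rw [hxp, hpk]
      · exact h2 x (by rw [hU, mem_erase, mem_erase]; exact ⟨hx.1, hxp, hx.2⟩) r1 hr1)
    obtain ⟨s, hs, hs2⟩ := this
    exact ⟨s, hs.trans (erase_subset _ _), hs2⟩
  by_cases hpk' : h p' = h r1
  · have := const (T.erase p) h m hm (by rw [card_erase_of_mem hp]; omega) (h r1) (by
      intro x hx
      rw [mem_erase] at hx
      by_cases hxp : x = p'
      · rw [hxp, hpk']
      · exact h2 x (by rw [hU, mem_erase, mem_erase]; exact ⟨hxp, hx.1, hx.2⟩) r1 hr1)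
    obtain ⟨s, hs, hs2⟩ := this
    exact ⟨s, hs.trans (erase_subset _ _), hs2⟩
  refine four T h m (by omega) hT p r1 p' r2 hp hr1'.2.2 hp' hr2'.2.2 ?_ hpk ?_
  · simp only [List.nodup_cons, List.mem_cons, List.not_mem_nil, or_false, not_or,
      not_false_eq_true, and_true, List.nodup_nil]
    exact ⟨⟨hr1'.2.1.symm, hpp, hr2'.2.1.symm⟩, ⟨hr1'.1, hrr⟩, hr2'.1.symm⟩
  · rw [h2 r2 hr2 r1 hr1]
    exact hpk'

end

theorem starsum {α : Type} [Fintype α] [DecidableEq α] (G : SimpleGraph α) [DecidableRel G.Adj]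
    (w : α) (hG : ∀ a b : α, G.Adj a b ↔ (a = w ∧ b ≠ w) ∨ (b = w ∧ a ≠ w))
    (f : α → α → ZMod 3) (hf : ∀ a b, f a b = f b a) :
    ∑ a, ∑ b, (if G.Adj a b then f a b else 0) = 2 * ∑ a ∈ univ.erase w, f w a := by
  rw [← add_sum_erase univ _ (mem_univ w)]
  have h1 : ∑ b, (if G.Adj w b then f w b else 0) = ∑ a ∈ univ.erase w, f w a := by
    rw [← sum_filter]
    refine sum_congr ?_ fun _ _ => rfl
    ext b
    simp [hG]
  have h2 : ∑ a ∈ univ.erase w, ∑ b, (if G.Adj a b then f a b else 0) =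
      ∑ a ∈ univ.erase w, f w a := by
    refine sum_congr rfl fun a ha => ?_
    have haw : a ≠ w := (mem_erase.1 ha).1
    rw [sum_eq_single w]
    · rw [if_pos ((hG a w).2 (Or.inr ⟨rfl, haw⟩)), hf]
    · intro b _ hb
      rw [if_neg]
      rw [hG]
      rintro (⟨h, _⟩ | ⟨h, _⟩)
      · exact haw h
      · exact hb h
    · intro h
      exact absurd (mem_univ w) h
  rw [h1, h2]
  ring

theorem star : S_EXT → S_STAR := by
  intro hext α V _ _ _ _ G _ c w hc hdeg hG hcard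
  have hV : 0 < Fintype.card V := by omega
  obtain ⟨z⟩ := Fintype.card_pos_iff.1 hV
  have hcα : (univ.erase w : Finset α).card + 1 = Fintype.card α := by
    rw [card_erase_of_mem (mem_univ w), card_univ]
    have : 0 < Fintype.card α := Fintype.card_pos_iff.2 ⟨w⟩
    omega
  set m := (univ.erase w : Finset α).card with hm
  have hm0 : (m : ZMod 3) = 0 := by
    unfold Deg3 at hdeg
    rw [starsum G w hG (fun _ _ => 1) (fun _ _ => rfl), sum_const, ← hm, nsmul_eq_mul,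
      mul_one] at hdeg
    generalize (m : ZMod 3) = x at hdeg
    revert x
    decide
  obtain ⟨s, hs, hsc, hs0⟩ := egz (univ.erase z) (fun y => c z y) m hm0 (by
    rw [card_erase_of_mem (mem_univ z), card_univ]
    omega)
  obtain ⟨φ, hφ, hφ1, hφ2⟩ := hext α V {w} (fun _ => z) s (by simp) (by
    intro a _ hz
    exact absurd rfl (mem_erase.1 (hs hz)).1) (by
    rw [card_singleton, hsc]
    omega)
  refine ⟨φ, hφ, ?_⟩
  have hw : φ w = z := hφ1 w (mem_singleton_self w)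
  have him : (univ.erase w).image φ = s := by
    apply eq_of_subset_of_card_le
    · intro x hx
      obtain ⟨a, ha, rfl⟩ := mem_image.1 hx
      exact hφ2 a (by simpa using ha)
    · rw [card_image_of_injective _ hφ, ← hm, hsc]
  unfold S
  rw [starsum G w hG (fun a b => c (φ a) (φ b)) (fun a b => hc _ _), hw]
  have : ∑ a ∈ univ.erase w, c z (φ a) = 0 := by
    rw [← hs0, ← him, sum_image (fun a _ b _ h => hφ h)]
  rw [this]
  ring

end Pool.Agent.Q25.ZR
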